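import Pool.Agent.H112R3.FM.R1
import Pool.Agent.H112R3.FM.R2
import Pool.Agent.H112R3.FM.R3
import Pool.Agent.H112R3.FM.R4
import Pool.Agent.H112R3.FM.R5
import Pool.Agent.H112R3.FM.R6
import Pool.Agent.H112R3.FM.R7
import Pool.Agent.H112R3.FM.R8
import Pool.Agent.H112R3.FM.R9

set_option autoImplicit false
open scoped Pointwise

namespace Pool.Agent.Results.MP_ce784b_co.NearModels

/-- In every abelian group a finite nonempty set `A` with `|A+A| ≤ K|A|` contains a subset `A'`
with `|A| ≤ (2K)^(200000 (1 + log (1 + log 2K))) |A'|` that is Freiman isomorphic (order 2) to a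
subset of a finite abelian group of order at most
`(2K)^(200000 (1 + log (1 + log 2K))) |A'|`. -/
theorem result.{u} {G : Type u} [AddCommGroup G] [DecidableEq G] (A : Finset G) (K : ℝ)
    (hA : A.Nonempty) (hK : ((A + A).card : ℝ) ≤ K * A.card) :
    ∃ A' ⊆ A,
      (A.card : ℝ) ≤ (2 * K) ^ (200000 * (1 + Real.log (1 + Real.log (2 * K)))) * A'.card ∧
      ∃ (M : Type u) (_ : AddCommGroup M) (_ : Fintype M),
        (Fintype.card M : ℝ) ≤
          (2 * K) ^ (200000 * (1 + Real.log (1 + Real.log (2 * K)))) * A'.card ∧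
        ∃ (B : Set M) (f : G → M), IsAddFreimanIso 2 (A' : Set G) B f := by
  open Pool.Agent.H112R3.FM in
  exact r9 (r7 (r2 r1) r3 r4 r5 r6) r8 G A K hA hK

end Pool.Agent.Results.MP_ce784b_co.NearModels
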