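import Pool.Agent.H112R3.FM.R1
import Pool.Agent.H112R3.FM.R2
import Pool.Agent.H112R3.FM.R3
import Pool.Agent.H112R3.FM.R4
import Pool.Agent.H112R3.FM.R5
import Pool.Agent.H112R3.FM.R6
import Pool.Agent.H112R3.FM.R7
import Pool.Agent.H112R3.FM.R10

set_option autoImplicit false
open scoped Pointwise

namespace Pool.Agent.Results.MP_ce784b_co.NoOddTorsion

/-- In an abelian group without nonzero elements of odd order a finite nonempty set `A` with
`|A+A| ≤ K|A|` contains a subset `A'` with `|A| ≤ (2K)^10000 |A'|` that is Freiman isomorphic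
(order 2) to a subset of a finite abelian group of order at most `(2K)^10000 |A'|`. -/
theorem result.{u} {G : Type u} [AddCommGroup G] [DecidableEq G]
    (hG : ∀ (g : G) (m : ℕ), Odd m → m • g = 0 → g = 0) (A : Finset G) (K : ℝ)
    (hA : A.Nonempty) (hK : ((A + A).card : ℝ) ≤ K * A.card) :
    ∃ A' ⊆ A, (A.card : ℝ) ≤ (2 * K) ^ (10000 : ℕ) * A'.card ∧
      ∃ (M : Type u) (_ : AddCommGroup M) (_ : Fintype M),
        (Fintype.card M : ℝ) ≤ (2 * K) ^ (10000 : ℕ) * A'.card ∧
        ∃ (B : Set M) (f : G → M), IsAddFreimanIso 2 (A' : Set G) B f := by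
  open Pool.Agent.H112R3.FM in
  exact r10 (r7 (r2 r1) r3 r4 r5 r6) G hG A K hA hK

end Pool.Agent.Results.MP_ce784b_co.NoOddTorsion
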